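import Mathlib
import Pool.Agent.N830.HC.Frame
import Pool.Agent.N183.TS.Stm
import Pool.Agent.Y224.TS.Stm

/-!
# Tate classes on abelian varieties over number fields

The other definitions which are used: abelian varieties `AV` and polarizations (`Pool.Agent.Y90`),
systems of classes `Sys`, factors `IsFactor`, `Unbalanced` and the classes `HasCMult`, `QuadMult`
of simple abelian varieties (`Pool.Agent.R915.Stm`, `Pool.Agent.R915.Stm2`), `RealOdd`
(`Pool.Agent.N183.TS.Stm`), the known properties `IsTateModule` of the Tate module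
(`Pool.Agent.Y224.TS.Stm`), `HasCMultIn` (`Pool.Agent.N830.HC.Stm`) and `Frame`, `Frame.Datum`,
`Frame.In` (`Pool.Agent.N830.HC.Frame`).
-/

namespace Pool.Agent.N830.TN

open Module Pool.Agent.Y90 Pool.Agent.R915 Pool.Agent.N830.HC Pool.Agent.N183.TS TensorProduct

/-- Each simple factor of `X` over the complex numbers has dimension at most three, or complex
multiplication (of any dimension), or belongs to one of the classes `QuadMult`, `RealOdd`. -/
def Good (X : AV) : Prop :=
  ∀ Y, IsFactor Y X → finrank ℚ Y.H ≤ 6 ∨ HasCMult Y ∨ QuadMult Y ∨ RealOdd Y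

/-- Each simple factor `Y` of `X` has complex multiplication by a subfield of `L`, or it has no
complex multiplication and has dimension at most three or belongs to one of the classes `QuadMult`,
`RealOdd`, and then each imaginary quadratic field `ℚ(√-d)` which acts on `Y` with two different
multiplicities on the tangent space is contained in `L`. -/
def GoodIn (L : Type) [Field L] (X : AV) : Prop :=
  ∀ Y, IsFactor Y X → HasCMultIn Y L ∨ (¬ HasCMult Y ∧
    (finrank ℚ Y.H ≤ 6 ∨ QuadMult Y ∨ RealOdd Y) ∧ ∀ d : ℚ, Unbalanced Y d →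
      ∃ s : L, s * s = -(d : L))

/-- The function `φ` (the restriction to `H_1(X, ℚ)` of a form on the Tate module) is a linear
combination, with coefficients in `K`, of classes of the system `𝒜`. -/
def IsComb (𝒜 : Sys) (X : AV) (K : Type) [Field K] [CharZero K] {κ : Type}
    (φ : (κ → X.H) → K) : Prop :=
  ∃ (n : ℕ) (c : Fin n → K) (f : Fin n → (X.H [⋀^κ]→ₗ[ℚ] ℚ)), (∀ i, 𝒜.A X κ (f i)) ∧
    ∀ v : κ → X.H, φ v = ∑ i, c i * ((f i v : ℚ) : K)

/-- The Tate conjecture for `X`, in all degrees: for each polarization `E` of `X`, each prime number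
`ℓ` and each representation `ρ` of a Galois group `Γ` on the Tate module `ℚ_ℓ ⊗ H_1(X, ℚ)` with the
known properties (`IsTateModule`; `χ` is the cyclotomic character, and `ℂ` is identified with an
algebraic closure of `ℚ_ℓ`), each Tate class `φ` of degree `2 m` (an alternating form on the Tate
module on which a subgroup of finite index acts through `χ ^ m`) is a `ℚ_ℓ`-linear combination of
classes of the system `𝒜`. -/
def TateIn (𝒜 : Sys) (X : AV) : Prop :=
  ∀ (E : X.H → X.H → ℚ) (_ : Pool.Agent.Y90.St.IsPolarization X.per E) (ℓ : ℕ) [Fact ℓ.Prime]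
    [Algebra ℚ_[ℓ] ℂ] [Algebra.IsAlgebraic ℚ_[ℓ] ℂ] (Γ : Type) [Group Γ]
    (ρ : Representation ℚ_[ℓ] Γ (ℚ_[ℓ] ⊗[ℚ] X.H)) (χ : Γ →* ℚ_[ℓ])
    (_ : Pool.Agent.Y224.TS.St.IsTateModule X.per E ρ χ) (κ : Type) [Finite κ] (m : ℕ)
    (_ : Nat.card κ = 2 * m) (φ : (ℚ_[ℓ] ⊗[ℚ] X.H) [⋀^κ]→ₗ[ℚ_[ℓ]] ℚ_[ℓ])
    (_ : ∃ Δ : Subgroup Γ, Δ.FiniteIndex ∧ ∀ g ∈ Δ, ∀ v : κ → ℚ_[ℓ] ⊗[ℚ] X.H,
      φ (fun k => ρ g (v k)) = χ g ^ m * φ v), IsComb 𝒜 X ℚ_[ℓ] fun v => φ fun k => 1 ⊗ₜ v k

end Pool.Agent.N830.TN
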