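import Mathlib
import Pool.Agent.N830.TN.Stm
import Pool.Agent.N183.TS.Main

/-!
# Tate classes: reduction to classes of degree four
-/

set_option linter.unusedSectionVars false

namespace Pool.Agent.N830.TN

open Module Pool.Agent.Y90 Pool.Agent.R915 Pool.Agent.N830.HC Pool.Agent.N183.TS TensorProduct
  NumberField
open Pool.Agent.H204R3.CM (IsHodge)
open Pool.Agent.W437.HC
open Pool.Agent.W547.KB (CMPair CMAV)

noncomputable section

/-- The local conditions. -/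
theorem lc_good {a : ℕ} {Z' : Matrix (Fin a) (Fin a) ℂ} (h' : Pool.Agent.Y90.PM Z')
    (hsim : IsSimple (AVZ h')) (ha : 0 < a) (hcm : ¬ HasCMult (AVZ h'))
    (k : finrank ℚ (AVZ h').H ≤ 6 ∨ QuadMult (AVZ h') ∨ RealOdd (AVZ h')) :
    ∀ U, IrS (LZ Z') U → LC h' U := by
  intro U hU
  rcases k with k | k | k
  · exact SmallDim.lc h' hsim ha ⟨k, fun h1 => absurd h1 hcm⟩ hU
  · exact k.lc h' hU
  · exact k.lc h' hsim ha hU

/-- Hodge classes. -/
theorem hodge_good (𝒜 : Sys) {B : CMPair} (F : Frame B) (hB : F.In 𝒜) (X : AV)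
    (hX : GoodIn F.L X) : 𝒜.AllHodge X := by
  rw [F.in_iff] at hB
  refine main_cm 𝒜 X (fun a Z' h' i hi hinj hsim ha => ?_) fun Q _ _ a Z' h' hc => ?_
  · rcases hX (AVZ h') ⟨hsim, i, hi, hinj⟩ with k | ⟨hcm, k, -⟩
    · exact Or.inr k.cm
    · exact Or.inl ⟨hcm, lc_good h' hsim ha hcm k⟩
  · have key : ∀ q, ∃ P : CMPair, IsOfType (AVZ (h' q)) P ∧ Nonempty (P.E →+* F.L) := by
      intro q
      obtain ⟨h3, h4, h5 | ⟨h5, d, h6, Y', hY', hn, h7⟩⟩ := hc q
      · rcases hX _ h5 with k | ⟨k, -⟩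
        · exact exists_typeL _ h3 k
        · exact absurd h4 k
      · rcases hX _ hY' with k | ⟨-, -, k⟩
        · exact absurd k.cm hn
        · obtain ⟨s, hs⟩ := k d h7
          exact exists_type_quad _ h3 h4 h5 h6 hs
    choose p hp1 hp2 using key
    exact prod_cm 𝒜 h' p hp1 (all_cm 𝒜 F.emb F.ne hB ⟨Q, p⟩ hp2)

theorem GoodIn.good {L : Type} [Field L] {X : AV} (h : GoodIn L X) : Good X := by
  intro Y hY
  rcases h Y hY with k | ⟨-, k | k, -⟩
  · exact Or.inr (Or.inl k.cm)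
  · exact Or.inl k
  · exact Or.inr (Or.inr k)

/-- Hodge classes on all abelian varieties. -/
theorem hodge_all_good (𝒜 : Sys) {B : CMPair}
    (h : ∀ F₀ : Frame B, ∃ F : Frame B, Nonempty (F₀.L →+* F.L) ∧ F.In 𝒜) (X : AV)
    (hX : Good X) : 𝒜.AllHodge X := by
  refine main_cm 𝒜 X (fun a Z' h' i hi hinj hsim ha => ?_) fun Q _ _ a Z' h' hc => ?_
  · by_cases hcm : HasCMult (AVZ h')
    · exact Or.inr hcm
    refine Or.inl ⟨hcm, lc_good h' hsim ha hcm ?_⟩
    rcases hX (AVZ h') ⟨hsim, i, hi, hinj⟩ with k | k | k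
    · exact Or.inl k
    · exact absurd k hcm
    · exact Or.inr k
  · choose p hp using fun q => exists_type _ (hc q).1 (hc q).2.1
    refine prod_cm 𝒜 h' p hp ?_
    let X' : CMAV := ⟨Q, p⟩
    have hne : Nonempty (X'.prod (Pool.Agent.W547.KB.single B)).I := ⟨Sum.inr ()⟩
    obtain ⟨L₀, _, _, _, _, j₀, hj⟩ :=
      Pool.Agent.W547.KB.exists_cm (X'.prod (Pool.Agent.W547.KB.single B))
    obtain ⟨ι, -⟩ := hj (Sum.inr ()) (Classical.choice inferInstance)
    obtain ⟨F, ⟨f⟩, hF⟩ := h ⟨L₀, ι, j₀, j₀, conj_ne j₀⟩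
    refine all_cm 𝒜 (f.comp ι) F.ne ((F.in_iff 𝒜).1 hF) X' fun q => ?_
    obtain ⟨φ, -⟩ := hj (Sum.inl q) (Classical.choice inferInstance)
    exact ⟨f.comp φ⟩

/-- The Tate conjecture follows from the Hodge conjecture. -/
theorem tate_of (𝒜 : Sys) (X : AV) (hX : Good X) (h : 𝒜.AllHodge X) : TateIn 𝒜 X := by
  intro E hE ℓ _ _ _ Γ _ ρ χ hρ κ _ m hκ φ hφ
  obtain ⟨n, c, f, hf, h3⟩ := tate_hodge X hX hE hρ hκ φ hφ
  exact ⟨n, c, f, fun j => h κ (f j) (hf j), h3⟩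

/-- Descent of the coefficients. -/
theorem descent (𝒜 : Sys) (X : AV) {κ : Type} (f : X.H [⋀^κ]→ₗ[ℚ] ℚ) (K : Type) [Field K]
    [CharZero K] (h : IsComb 𝒜 X K fun v : κ → X.H => ((f v : ℚ) : K)) : 𝒜.A X κ f := by
  obtain ⟨n, c, g, hg, h1⟩ := h
  -- a rational functional on `K` with value one at one
  obtain ⟨t, ht⟩ : ∃ t : K →ₗ[ℚ] ℚ, t 1 = 1 := by
    have h2 : (LinearMap.toSpanSingleton ℚ K 1).ker = ⊥ :=
      LinearMap.ker_toSpanSingleton ℚ one_ne_zero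
    obtain ⟨t, ht⟩ := LinearMap.exists_leftInverse_of_injective (LinearMap.toSpanSingleton ℚ K 1) h2
    refine ⟨t, ?_⟩
    have h3 := LinearMap.congr_fun ht 1
    rwa [LinearMap.comp_apply, LinearMap.toSpanSingleton_apply, one_smul] at h3
  have h2 : f = ∑ i, t (c i) • g i := by
    refine AlternatingMap.ext fun v => ?_
    have h3 := congrArg t (h1 v)
    rw [map_sum] at h3
    have h4 : t ((f v : ℚ) : K) = f v := by
      have h5 : ((f v : ℚ) : K) = (f v) • (1 : K) := by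
        rw [Algebra.smul_def, mul_one, eq_ratCast]
      rw [h5, map_smul, ht, smul_eq_mul, mul_one]
    have h6 : ∀ i, t (c i * ((g i v : ℚ) : K)) = t (c i) * g i v := by
      intro i
      have h5 : c i * ((g i v : ℚ) : K) = (g i v) • (c i) := by
        rw [Algebra.smul_def, eq_ratCast, mul_comm]
      rw [h5, map_smul, smul_eq_mul, mul_comm]
    rw [h4] at h3
    rw [h3, Finset.sum_congr rfl fun i _ => h6 i]
    let ev : (X.H [⋀^κ]→ₗ[ℚ] ℚ) →+ ℚ :=
      { toFun := fun g => g v, map_zero' := rfl, map_add' := fun _ _ => rfl }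
    exact (map_sum ev (fun i => t (c i) • g i) Finset.univ).symm
  rw [h2]
  classical
  have key : ∀ s : Finset (Fin n), 𝒜.A X κ (∑ i ∈ s, t (c i) • g i) := by
    intro s
    induction s using Finset.induction_on with
    | empty => rw [Finset.sum_empty]; exact 𝒜.zero X κ
    | insert a s ha ih =>
      rw [Finset.sum_insert ha]
      exact 𝒜.add _ _ (𝒜.smul _ _ (hg a)) ih
  exact key _

/-- The classes of degree four. -/
theorem in_of_comb (𝒜 : Sys) {B : CMPair} (F : Frame B)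
    (h : ∀ (d : F.Datum) (f : d.X.H [⋀^Fin 4]→ₗ[ℚ] ℚ), d.IsClass f →
      ∃ (ℓ : ℕ) (_ : Fact ℓ.Prime), IsComb 𝒜 d.X ℚ_[ℓ] fun v => ((f v : ℚ) : ℚ_[ℓ])) : F.In 𝒜 := by
  intro d f hf
  obtain ⟨ℓ, _, h1⟩ := h d f hf
  exact descent 𝒜 d.X f ℚ_[ℓ] h1

end

end Pool.Agent.N830.TN
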